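import Pool.Agent.H992.SF.GDefs

/-!
# The criterion for arbitrary families, from the interfaces
-/

set_option autoImplicit false
open MeasureTheory Filter Topology Complex ProbabilityTheory
open scoped ContDiff ENNReal

namespace Pool.Agent.H740.SG

open Pool.Agent.H992.SF
open Pool.Agent.W745.RW (TF)
open Pool.Agent.N661.BR (MW lin shift IsStationary IsErgodic IsRandomWave)
open Pool.Agent.N661.BH (HP area frames loc mv LocalLaws)
open Pool.Agent.N814.BHM (P mass)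
open Pool.Agent.N814.BHASM (Hyp ex)
open Pool.Agent.H992.LB (eγ eX SX nn fs val_fs)

theorem frameMean_one : frameMean (fun _ => 1) = 1 := by
  unfold frameMean
  rw [intervalIntegral.integral_const, sub_zero]
  have hpi : Real.pi ≠ 0 := Real.pi_ne_zero
  have hpiC : (Real.pi : ℂ) ≠ 0 := by exact_mod_cast hpi
  rw [Complex.real_smul]
  push_cast
  field_simp
  norm_num

theorem jChar_zero {d k : ℕ} (Ω : Set ℂ) (ψ : ℂ → ℝ) (lam : Fin d → ℝ) (u : Fin d → ℂ → ℝ)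
    (w : Fin d → Fin k → ℂ) : jChar Ω ψ lam u w 0 = area Ω fun z => (ψ z : ℂ) := by
  unfold jChar
  simp only [Pi.zero_apply, zero_mul, Finset.sum_const_zero, Complex.ofReal_zero, mul_zero,
    Complex.exp_zero, frameMean_one, mul_one]

theorem fs_zero {k : ℕ} (w : Fin k → ℂ) : fs w 0 = 0 := by
  unfold fs
  refine Finset.sum_eq_zero fun j _ => ?_
  rw [Pi.zero_apply, Finsupp.single_zero]

theorem eX_zero (lam : ℝ) (u : ℂ → ℝ) (p : ℂ × (ℝ × Bool)) : eX lam u 0 p = 1 := by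
  unfold eX SX
  simp

theorem eXJ_zero {d : ℕ} (lam : Fin d → ℝ) (u : Fin d → ℂ → ℝ) (p : ℂ × (ℝ × Bool)) :
    eXJ lam u (fun _ => 0) p = 1 := by
  unfold eXJ
  exact Finset.prod_eq_one fun i _ => eX_zero _ _ _

theorem area_eq (h2 : S_BRIDGE2) {d : ℕ} {Ω : Set ℂ} {lam : Fin d → ℕ → ℝ}
    {u : Fin d → ℕ → ℂ → ℝ} (H : ∀ i, Hyp Ω (lam i) (u i)) (hd : 0 < d) {ψ : ℂ → ℝ}
    (hψ : Ad Ω ψ) : (area Ω fun z => (ψ z : ℂ)) = (mass Ω : ℂ) * ∫ p, (ψ p.1 : ℂ) ∂(P Ω) := by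
  obtain ⟨n, hn⟩ := (h2 d Ω lam u H hd ψ hψ 0 (fun _ _ => 0) 0).exists
  rw [jChar_zero] at hn
  rw [hn]
  congr 1
  refine integral_congr_ae (Eventually.of_forall fun p => ?_)
  show (ψ p.1 : ℂ) * eXJ _ _ (fun i => fs _ ((0 : Fin d → Fin 0 → ℝ) i)) p = (ψ p.1 : ℂ)
  have e : (fun i => fs (fun _ => (0 : ℂ)) ((0 : Fin d → Fin 0 → ℝ) i)) =
      fun _ : Fin d => (0 : ℂ →₀ ℝ) := by
    funext i
    rw [Pi.zero_apply, fs_zero]
  rw [e, eXJ_zero, mul_one]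

theorem equiv2 (h1 : S_GEN) (h2 : S_BRIDGE2) (h3 : S_BDT) (h4 : S_BCV) : S_EQUIV2 := by
  intro d Ω lam u H γ hγ hrw U hU hne κ hκ
  constructor
  · intro hJ ψ hψ k w t
    have hB : ∀ a : ℕ, Bd Ω lam u γ U (Finset.univ.filter fun i => κ i = a) :=
      fun a => h3 (d + 1) Ω lam u H (Nat.succ_pos d) γ hγ U hne _ (hJ a)
    have g := h1 (d + 1) Ω lam u (Nat.succ_pos d) H γ hγ hrw U hU hne κ hκ hB ψ (Or.inl hψ)
      (fun i => fs (w i) (t i))
    have g2 := g.const_mul (mass Ω : ℂ)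
    have g3 := g2.congr' ((h2 (d + 1) Ω lam u H (Nat.succ_pos d) ψ (Or.inl hψ) k w t).mono
      fun n hn => hn.symm)
    have e1 : ∀ i, ∫ f, eγ (fs (w i) (t i)) f ∂γ =
        ∫ f, Complex.exp (I * (lin (w i) (t i) f : ℝ)) ∂γ := by
      intro i
      refine integral_congr_ae (Eventually.of_forall fun f => ?_)
      simp only [eγ, val_fs]
    have e2 : (mass Ω : ℂ) * ((∏ i, ∫ f, eγ (fs (w i) (t i)) f ∂γ) * ∫ p, (ψ p.1 : ℂ) ∂(P Ω)) =
        (∏ i, ∫ f, Complex.exp (I * (lin (w i) (t i) f : ℝ)) ∂γ) *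
          area Ω fun z => (ψ z : ℂ) := by
      rw [area_eq h2 H (Nat.succ_pos d) (Or.inl hψ), Finset.prod_congr rfl fun i _ => e1 i]
      ring
    rw [e2] at g3
    exact g3
  · intro h a
    exact h4 (d + 1) Ω lam u H (Nat.succ_pos d) γ hγ h U _

end Pool.Agent.H740.SG
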